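import Pool.Agent.Helper26.HW.Sub
import Pool.Agent.Helper39.HV.NE

/-! # HW: the row NE0 -/

set_option autoImplicit false

namespace Pool.Agent.Helper39.HW

open MeasureTheory Filter Pool.Agent.Helper95 Pool.Agent.Helper95.PW Pool.Agent.Helper95.LN
  Pool.Agent.Helper95.CF Pool.Agent.Helper95.HV Pool.Agent.Helper53.LN Pool.Agent.Helper39.HV
open Pool.Agent.Helper82.PN (pgb_tri)

theorem NE0 (h1 : ST_FLD) (h2 : ST_CUT) : Pool.Agent.Helper26.HW.ST_NE0 := by
  intro d hd hd1
  obtain ⟨K1, hK1, HF⟩ := h1
  obtain ⟨K, hK, HC, _⟩ := h2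
  have hK0 : 0 < K := by linarith
  have hK10 : 0 < K1 := by linarith
  refine ⟨2 * (46080 * K1 / d ^ 3) + 414 * K ^ 2, by positivity, ?_⟩
  intro z L n M X Z y hDat hL hXL hy
  have hS := hDat.sep
  have hZ0 : ∀ j, 0 ≤ Z j := hDat.nuc.1
  have hz : 0 ≤ z := zero_le_one.trans hDat.z1
  have hL0 : 0 < L := by linarith
  have hr : ∀ j, 0 < nr (y - X j) := fun j => lt_of_le_of_ne (VIR_nr0 _) (Ne.symm (hy j))
  have hpot : 0 ≤ pot X Z y := by
    unfold pot
    exact Finset.sum_nonneg fun j _ => div_nonneg (hZ0 j) (VIR_nr0 _)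
  have F := fun m => HF M X d (d / 8) (d / 8) m hd hS (by positivity) le_rfl (by linarith)
  by_cases hyL : nr y < L
  · have hgv : ∀ m, gv (gm m L) y = em m := fun m => ne_gv (HC m L hL0).2.1 hyL
    have hgq : ∀ m i, gq (gm m L) y i = 0 := fun m i => ne_gq (HC m L hL0).2.1 hyL i
    have e1 : ∀ j, ∑ m, Z j * ((∑ i, gq (gm m L) y i * (y i - X j i)) / nr (y - X j) ^ 3 -
        Tq (y - X j) (gv (gm m L) y) (gv (gm m L) y) +
        2 * (if nr (y - X j) ≤ d / 2 then
          Tq (y - X j) (gv (gm m L) y) (gv (gN X m (d / 8)) y) else 0)) =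
        Z j * (2 * ∑ m, (if nr (y - X j) ≤ d / 2 then
          Tq (y - X j) (em m) (gv (gN X m (d / 8)) y) else 0)) := by
      intro j
      rw [← Finset.mul_sum, Finset.sum_add_distrib, Finset.sum_sub_distrib, ← Finset.mul_sum]
      simp only [hgv, hgq, zero_mul, Finset.sum_const_zero, zero_div]
      rw [ne_tr (hr j), sub_zero, zero_add]
    rw [Finset.sum_comm, Finset.sum_congr rfl fun j _ => e1 j]
    have hfin : 2 * (z * (46080 * K1 / d ^ 3)) ≤
        (2 * (46080 * K1 / d ^ 3) + 414 * K ^ 2) * z +
        (2 * (46080 * K1 / d ^ 3) + 414 * K ^ 2) / L * pot X Z y := by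
      have t1 : 0 ≤ (2 * (46080 * K1 / d ^ 3) + 414 * K ^ 2) / L * pot X Z y := by
        positivity
      have t2 : (2 * (46080 * K1 / d ^ 3) + 414 * K ^ 2) * z =
          2 * (z * (46080 * K1 / d ^ 3)) + 414 * K ^ 2 * z := by ring
      have t3 : 0 ≤ 414 * K ^ 2 * z := by positivity
      linarith
    refine le_trans ?_ hfin
    by_cases hnear : ∃ i, nr (y - X i) ≤ d / 4
    · obtain ⟨i, hi⟩ := hnear
      have hj : ∀ j, Z j * (2 * ∑ m, (if nr (y - X j) ≤ d / 2 then
          Tq (y - X j) (em m) (gv (gN X m (d / 8)) y) else 0)) ≤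
          z * (2 * (if j = i then 46080 * K1 / d ^ 3 else 0)) := by
        intro j
        have hbnd : ∑ m, (if nr (y - X j) ≤ d / 2 then
            Tq (y - X j) (em m) (gv (gN X m (d / 8)) y) else 0) ≤
            (if j = i then 46080 * K1 / d ^ 3 else 0) := by
          by_cases hji : j = i
          · rw [if_pos hji, hji]
            have h2i : nr (y - X i) ≤ d / 2 := by linarith
            simp only [if_pos h2i]
            have hb : ∀ m, Tq (y - X i) (em m) (gv (gN X m (d / 8)) y) ≤
                30 * (1 * K1) / nr (y - X i) ^ 3 := fun m =>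
              (le_abs_self _).trans (ne_tq zero_le_one hK10.le (em_le m)
                (fun i => (F m).1.d1 i y) (hr i))
            have hb3 : ∑ m, Tq (y - X i) (em m) (gv (gN X m (d / 8)) y) ≤
                90 * K1 / nr (y - X i) ^ 3 := by
              refine (Finset.sum_le_sum fun m _ => hb m).trans (le_of_eq ?_)
              simp
              ring
            by_cases h8 : nr (y - X i) < d / 8
            · have : ∑ m, Tq (y - X i) (em m) (gv (gN X m (d / 8)) y) =
                  ∑ m, Tq (y - X i) (em m) (em m) := by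
                refine Finset.sum_congr rfl fun m _ => ?_
                have : gv (gN X m (d / 8)) y = em m := by
                  funext l
                  exact (F m).2.2.1 i y h8 l
                rw [this]
              rw [this, ne_tr (hr i)]
              positivity
            · push Not at h8
              refine hb3.trans ?_
              have h9 : (d / 8) ^ 3 ≤ nr (y - X i) ^ 3 := pow_le_pow_left₀ (by positivity) h8 3
              have h10 : 90 * K1 / nr (y - X i) ^ 3 ≤ 90 * K1 / (d / 8) ^ 3 :=
                div_le_div_of_nonneg_left (by positivity) (by positivity) h9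
              refine h10.trans (le_of_eq ?_)
              field_simp
              ring
          · rw [if_neg hji]
            have t1 := hS i j (Ne.symm hji)
            have t2 := pgb_tri (X i) (X j) y
            have t3 : ¬ nr (y - X j) ≤ d / 2 := by
              intro h
              linarith
            simp only [if_neg t3]
            simp
        have hB0 : 0 ≤ (if j = i then 46080 * K1 / d ^ 3 else 0) := by
          split_ifs <;> positivity
        exact (mul_le_mul_of_nonneg_left (mul_le_mul_of_nonneg_left hbnd (by norm_num))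
          (hZ0 j)).trans (mul_le_mul_of_nonneg_right (hDat.le j) (by positivity))
      refine (Finset.sum_le_sum fun j _ => hj j).trans ?_
      rw [← Finset.mul_sum, ← Finset.mul_sum,
        Finset.sum_ite_eq' Finset.univ i (fun _ => 46080 * K1 / d ^ 3),
        if_pos (Finset.mem_univ i)]
      linarith
    · push Not at hnear
      have h0 : ∀ m, gv (gN X m (d / 8)) y = 0 := by
        intro m
        funext l
        exact (F m).2.2.2.1 y (fun j => by
          have := hnear j
          linarith) l
      have h00 : ∀ j, Z j * (2 * ∑ m, (if nr (y - X j) ≤ d / 2 then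
          Tq (y - X j) (em m) (gv (gN X m (d / 8)) y) else 0)) = 0 := by
        intro j
        simp only [h0]
        simp [Tq]
      rw [Finset.sum_congr rfl fun j _ => h00 j, Finset.sum_const_zero]
      positivity
  · push Not at hyL
    have hrL : ∀ j, L / 2 ≤ nr (y - X j) := by
      intro j
      have t1 := pgb_tri y 0 (X j)
      rw [sub_zero, sub_zero, VIR_sym (X j) y] at t1
      have := hXL j
      have := VIR_nr0 (X j)
      linarith
    have h0 : ∀ m, gv (gN X m (d / 8)) y = 0 := by
      intro m
      funext l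
      exact (F m).2.2.2.1 y (fun j => by
        have := hrL j
        linarith) l
    have hg1 : ∀ m i, |gv (gm m L) y i| ≤ K := fun m i => (HC m L hL0).1.d1 i y
    have hg2 : ∀ m i, |gq (gm m L) y i| ≤ 3 * (K / L * K) := by
      intro m i
      unfold gq
      refine (Finset.abs_sum_le_sum_abs _ _).trans ?_
      have h1 : ∀ l ∈ (Finset.univ : Finset (Fin 3)),
          |pd l (pd i (gm m L)) y * pd l (gm m L) y| ≤ K / L * K := by
        intro l _
        rw [abs_mul]
        exact mul_le_mul ((HC m L hL0).1.d2 l i y) ((HC m L hL0).1.d1 l y) (abs_nonneg _)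
          (by positivity)
      refine (Finset.sum_le_sum h1).trans (le_of_eq ?_)
      simp
    have hj : ∀ m j, Z j * ((∑ i, gq (gm m L) y i * (y i - X j i)) / nr (y - X j) ^ 3 -
        Tq (y - X j) (gv (gm m L) y) (gv (gm m L) y) +
        2 * (if nr (y - X j) ≤ d / 2 then
          Tq (y - X j) (gv (gm m L) y) (gv (gN X m (d / 8)) y) else 0)) ≤
        138 * K ^ 2 / L * (Z j / nr (y - X j)) := by
      intro m j
      have hrj := hr j
      have hrLj := hrL j
      have t0 : (if nr (y - X j) ≤ d / 2 then
          Tq (y - X j) (gv (gm m L) y) (gv (gN X m (d / 8)) y) else 0) = 0 := by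
        rw [h0]
        simp [Tq]
      have t1 : -Tq (y - X j) (gv (gm m L) y) (gv (gm m L) y) ≤
          30 * (K * K) / nr (y - X j) ^ 3 :=
        (neg_le_abs _).trans (ne_tq hK0.le hK0.le (hg1 m) (hg1 m) hrj)
      have t2 : (∑ i, gq (gm m L) y i * (y i - X j i)) ≤
          3 * (3 * (K / L * K)) * nr (y - X j) :=
        (le_abs_self _).trans (ne_dot (v := gq (gm m L) y) (ξ := y - X j) (by positivity)
          (hg2 m))
      have t3 : (∑ i, gq (gm m L) y i * (y i - X j i)) / nr (y - X j) ^ 3 ≤
          3 * (3 * (K / L * K)) * nr (y - X j) / nr (y - X j) ^ 3 :=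
        div_le_div_of_nonneg_right t2 (by positivity)
      have t4 : 3 * (3 * (K / L * K)) * nr (y - X j) / nr (y - X j) ^ 3 ≤
          18 * K ^ 2 / L * (1 / nr (y - X j)) := by
        have e : 3 * (3 * (K / L * K)) * nr (y - X j) / nr (y - X j) ^ 3 =
            9 * K ^ 2 / L * (1 / nr (y - X j)) * (1 / nr (y - X j)) := by
          field_simp
          ring
        have e2 : 1 / nr (y - X j) ≤ 2 := by
          rw [div_le_iff₀ hrj]
          linarith
        rw [e]
        have e3 : 9 * K ^ 2 / L * (1 / nr (y - X j)) * (1 / nr (y - X j)) ≤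
            9 * K ^ 2 / L * (1 / nr (y - X j)) * 2 :=
          mul_le_mul_of_nonneg_left e2 (by positivity)
        refine e3.trans (le_of_eq ?_)
        ring
      have t5 : 30 * (K * K) / nr (y - X j) ^ 3 ≤ 120 * K ^ 2 / L * (1 / nr (y - X j)) := by
        have e : 30 * (K * K) / nr (y - X j) ^ 3 =
            30 * K ^ 2 * (1 / nr (y - X j)) * (1 / nr (y - X j) ^ 2) := by
          field_simp
        have e2 : 1 / nr (y - X j) ^ 2 ≤ 4 / L := by
          have e3 : (L / 2) ^ 2 ≤ nr (y - X j) ^ 2 := pow_le_pow_left₀ (by positivity) hrLj 2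
          rw [div_le_div_iff₀ (by positivity) hL0]
          nlinarith
        rw [e]
        have e3 : 30 * K ^ 2 * (1 / nr (y - X j)) * (1 / nr (y - X j) ^ 2) ≤
            30 * K ^ 2 * (1 / nr (y - X j)) * (4 / L) :=
          mul_le_mul_of_nonneg_left e2 (by positivity)
        refine e3.trans (le_of_eq ?_)
        ring
      have t6 : (∑ i, gq (gm m L) y i * (y i - X j i)) / nr (y - X j) ^ 3 -
          Tq (y - X j) (gv (gm m L) y) (gv (gm m L) y) +
          2 * (if nr (y - X j) ≤ d / 2 then
            Tq (y - X j) (gv (gm m L) y) (gv (gN X m (d / 8)) y) else 0) ≤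
          138 * K ^ 2 / L * (1 / nr (y - X j)) := by
        rw [t0, mul_zero, add_zero]
        have e : 138 * K ^ 2 / L * (1 / nr (y - X j)) = 18 * K ^ 2 / L * (1 / nr (y - X j)) +
            120 * K ^ 2 / L * (1 / nr (y - X j)) := by ring
        rw [e]
        linarith
      refine (mul_le_mul_of_nonneg_left t6 (hZ0 j)).trans (le_of_eq ?_)
      ring
    have hsum : ∑ m : Fin 3, ∑ j, Z j * ((∑ i, gq (gm m L) y i * (y i - X j i)) /
        nr (y - X j) ^ 3 - Tq (y - X j) (gv (gm m L) y) (gv (gm m L) y) +
        2 * (if nr (y - X j) ≤ d / 2 then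
          Tq (y - X j) (gv (gm m L) y) (gv (gN X m (d / 8)) y) else 0)) ≤
        ∑ _m : Fin 3, ∑ j, 138 * K ^ 2 / L * (Z j / nr (y - X j)) :=
      Finset.sum_le_sum fun m _ => Finset.sum_le_sum fun j _ => hj m j
    refine hsum.trans ?_
    have e : ∑ _m : Fin 3, ∑ j, 138 * K ^ 2 / L * (Z j / nr (y - X j)) =
        414 * K ^ 2 / L * pot X Z y := by
      unfold pot
      rw [← Finset.mul_sum]
      simp
      ring
    rw [e]
    have t1 : 0 ≤ (2 * (46080 * K1 / d ^ 3) + 414 * K ^ 2) * z := by positivity
    have t2 : (2 * (46080 * K1 / d ^ 3) + 414 * K ^ 2) / L * pot X Z y =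
        414 * K ^ 2 / L * pot X Z y + 2 * (46080 * K1 / d ^ 3) / L * pot X Z y := by
      ring
    have t3 : 0 ≤ 2 * (46080 * K1 / d ^ 3) / L * pot X Z y := by positivity
    linarith

end Pool.Agent.Helper39.HW
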